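import Mathlib
import Pool.Agent.MP_3fd310_co.Balanced

set_option autoImplicit false

namespace Pool.Agent.Results.MP_3fd310_co.BalancedMargins

open Pool.Agent.MP_3fd310_co.Gen

/-- The graph of a nondegenerate `p × q` transportation polytope has a Hamiltonian cycle if all
column sums are at most `M` and the column sums above `M / 2` add up to at least
`u i + 5000 p M` for every row `i`. -/
theorem result :
    ∀ (p q : ℕ) (u : Fin p → ℝ) (v : Fin q → ℝ) (M : ℝ), 0 < p → (∀ j, v j ≤ M) →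
      (∀ i, u i + 5000 * p * M ≤ ∑ j ∈ Finset.univ.filter fun j => M < 2 * v j, v j) →
      (∀ i, 0 < u i) → (∀ j, 0 < v j) →
      (∑ i, u i) = (∑ j, v j) →
      (∀ (I : Finset (Fin p)) (J : Finset (Fin q)), I.Nonempty → I ≠ Finset.univ → J.Nonempty →
        J ≠ Finset.univ → (∑ i ∈ I, u i) ≠ ∑ j ∈ J, v j) →
      ∀ P : Set (Fin p → Fin q → ℝ),
        P = {x | (∀ i j, 0 ≤ x i j) ∧ (∀ i, (∑ j, x i j) = u i) ∧ (∀ j, (∑ i, x i j) = v j)} →
        ∃ (n : ℕ) (f : Fin n → (Fin p → Fin q → ℝ)),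
          Function.Injective f ∧
          Set.range f = Set.extremePoints ℝ P ∧
          ∀ i : Fin n, IsExtreme ℝ P (segment ℝ (f i) (f (finRotate n i))) := by
  intro p q u v M hp hM hbal hu hv hsum hnd P hP
  have hT : 0 < ∑ j, v j := hsum ▸ Finset.sum_pos (fun i _ => hu i) ⟨⟨0, hp⟩, Finset.mem_univ _⟩
  obtain ⟨j, -, hj⟩ := Finset.exists_ne_zero_of_sum_ne_zero hT.ne'
  exact setup_EqCol p q u v hp hu hv hsum hnd P hP fun b hs hB hmem =>
    ham_Bal ⟨hs, hB, hv, hmem⟩ hp hsum hM ((hv j).trans_le (hM j)) hbal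

end Pool.Agent.Results.MP_3fd310_co.BalancedMargins
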