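import Mathlib
import Pool.Agent.MP_3fd310_co.Balanced

set_option autoImplicit false

namespace Pool.Agent.Results.MP_3fd310_co.FewSmallColumns

open Pool.Agent.MP_3fd310_co.Gen

/-- The graph of a nondegenerate `p × q` transportation polytope has a Hamiltonian cycle if
`2400 (m + 2 (p - 1)) ≤ (p - 1) (q - 1)`, where `m` is the number of columns whose sum is not the
largest column sum. -/
theorem result :
    ∀ (p q : ℕ) (u : Fin p → ℝ) (v : Fin q → ℝ), 2 ≤ p →
      2400 * ((Finset.univ.filter fun j => ∃ k, v j < v k).card + 2 * (p - 1)) ≤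
        (p - 1) * (q - 1) →
      (∀ i, 0 < u i) → (∀ j, 0 < v j) →
      (∑ i, u i) = (∑ j, v j) →
      (∀ (I : Finset (Fin p)) (J : Finset (Fin q)), I.Nonempty → I ≠ Finset.univ → J.Nonempty →
        J ≠ Finset.univ → (∑ i ∈ I, u i) ≠ ∑ j ∈ J, v j) →
      ∀ P : Set (Fin p → Fin q → ℝ),
        P = {x | (∀ i j, 0 ≤ x i j) ∧ (∀ i, (∑ j, x i j) = u i) ∧ (∀ j, (∑ i, x i j) = v j)} →
        ∃ (n : ℕ) (f : Fin n → (Fin p → Fin q → ℝ)),
          Function.Injective f ∧
          Set.range f = Set.extremePoints ℝ P ∧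
          ∀ i : Fin n, IsExtreme ℝ P (segment ℝ (f i) (f (finRotate n i))) :=
  fun p q u v hp hpq hu hv hsum hnd P hP => main_EqCol p q u v hp hpq hu hv hsum hnd P hP

end Pool.Agent.Results.MP_3fd310_co.FewSmallColumns
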