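import Mathlib
import Pool.Agent.Mg.F3fd310.Gdbd109
import Pool.Agent.MP_3fd310_co.GHaxell

set_option autoImplicit false

namespace Pool.Agent.Results.MP_3fd310_co.NondegenerateLarge

open Pool.Agent.MP_3fd310_co.Gen

/-- The graph of every nondegenerate `p × q` transportation polytope with
`2401 (p + q) < p q` has a Hamiltonian cycle. -/
theorem result :
    ∀ (p q : ℕ) (u : Fin p → ℝ) (v : Fin q → ℝ), 2401 * (p + q) < p * q →
      (∀ i, 0 < u i) → (∀ j, 0 < v j) →
      (∑ i, u i) = (∑ j, v j) →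
      (∀ (I : Finset (Fin p)) (J : Finset (Fin q)), I.Nonempty → I ≠ Finset.univ → J.Nonempty →
        J ≠ Finset.univ → (∑ i ∈ I, u i) ≠ ∑ j ∈ J, v j) →
      ∀ P : Set (Fin p → Fin q → ℝ),
        P = {x | (∀ i j, 0 ≤ x i j) ∧ (∀ i, (∑ j, x i j) = u i) ∧ (∀ j, (∑ i, x i j) = v j)} →
        ∃ (n : ℕ) (f : Fin n → (Fin p → Fin q → ℝ)),
          Function.Injective f ∧
          Set.range f = Set.extremePoints ℝ P ∧
          ∀ i : Fin n, IsExtreme ℝ P (segment ℝ (f i) (f (finRotate n i))) :=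
  fun p q u v hpq hu hv hsum hnd P hP =>
    trans_thm
      (graph_stmt (part_stmt haxell_stmt) tough_stmt
        (link_stmt (free_stmt replace_stmt) (merge_stmt replace_stmt exch_stmt blk_stmt)
          count_stmt)
        (henn_stmt union_stmt) even_stmt init_stmt cyc_stmt)
      ext_stmt (seg_stmt zero_stmt) (deg_stmt zero_stmt (pivot_stmt zero_stmt))
      (bal_stmt (cone_stmt (pivot_stmt zero_stmt))) trans_stmt p q u v hpq hu hv hsum hnd P hP

end Pool.Agent.Results.MP_3fd310_co.NondegenerateLarge
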