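import Pool.Agent.Mg.F3fd310a.G5f01f7

set_option autoImplicit false

namespace Pool.Agent.Results.MP_3fd310_co.TwoRowsHamiltonian

/-- The graph of every p x q transportation polytope with p at most 2 or q at most 2 and at least
three vertices is Hamiltonian (all positive margins, degenerate ones included). -/
theorem result :
    ∀ (p q : ℕ), (p ≤ 2 ∨ q ≤ 2) → ∀ (u : Fin p → ℝ) (v : Fin q → ℝ),
      (∀ i, 0 < u i) → (∀ j, 0 < v j) →
      (∑ i, u i) = (∑ j, v j) →
      ∀ P : Set (Fin p → Fin q → ℝ),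
        P = {x | (∀ i j, 0 ≤ x i j) ∧ (∀ i, (∑ j, x i j) = u i) ∧ (∀ j, (∑ i, x i j) = v j)} →
        3 ≤ (Set.extremePoints ℝ P).ncard →
        ∃ (n : ℕ) (f : Fin n → (Fin p → Fin q → ℝ)),
          Function.Injective f ∧
          Set.range f = Set.extremePoints ℝ P ∧
          ∀ i : Fin n, IsExtreme ℝ P (segment ℝ (f i) (f (finRotate n i))) := by
  rintro p q hpq u v hu hv h P rfl h3
  exact Pool.Agent.MP_3fd310_co.tp_ham p q hpq u v hu hv h h3

end Pool.Agent.Results.MP_3fd310_co.TwoRowsHamiltonian
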